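import Pool.Agent.H16.GA.PIG

/-!
Row TAY of the board gzz: the abstract inequality.
-/

set_option autoImplicit false

namespace Pool.Agent.H16.GZZ

open MeasureTheory Pool.Agent.H34.GM Pool.Agent.H34.GZ Pool.Agent.H34.GU Pool.Agent.H34.GA
  Pool.Agent.H16.GA

/-- an integral of exponentials with a non zero Taylor coefficient does not vanish identically near
`0` -/
theorem tay_ne {X : Type} [MeasurableSpace X] (μ : Measure X) (ψ : X → ℂ) (τ : X → ℝ) (M : ℝ)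
    (n : ℕ) (κ : ℂ) (hψ : Integrable ψ μ) (hτm : AEStronglyMeasurable τ μ) (hM : 1 ≤ M)
    (hτ : ∀ x, ψ x ≠ 0 → |τ x| ≤ M) (hn : 1 ≤ n) (hκ : κ ≠ 0)
    (hκi : ∫ x, ψ x * ((τ x : ℝ) : ℂ) ^ n ∂μ = κ) :
    ∃ u : ℝ, 0 < u ∧ u ≤ 1 / 16 ∧
      ∫ x, ψ x * Complex.exp ((u : ℂ) * ((τ x : ℝ) : ℂ)) ∂μ ≠ 0 := by
  obtain ⟨K, hK⟩ : ∃ K : ℝ, K = ∫ x, ‖ψ x‖ ∂μ := ⟨_, rfl⟩
  have hK0 : 0 ≤ K := by
    rw [hK]
    exact integral_nonneg fun x => norm_nonneg _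
  have hκ0 : 0 < ‖κ‖ := norm_pos_iff.2 hκ
  have hnR : (1 : ℝ) ≤ n := by exact_mod_cast hn
  obtain ⟨A, hA⟩ : ∃ A : ℝ, A = ‖κ‖ / n.factorial / (4 * n) ^ n := ⟨_, rfl⟩
  have hfac : (0 : ℝ) < n.factorial := by exact_mod_cast n.factorial_pos
  have hA0 : 0 < A := by rw [hA]; positivity
  obtain ⟨G, hG⟩ : ∃ G : ℝ, G = K * (M ^ (n + 1) * Real.exp M) * 2 ^ (n + 1) := ⟨_, rfl⟩
  have hG0 : 0 ≤ G := by rw [hG]; positivity
  obtain ⟨ε, hε⟩ : ∃ ε : ℝ, ε = min (1 / 32) (A / (2 * (G + 1))) := ⟨_, rfl⟩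
  have hε0 : 0 < ε := by
    rw [hε]
    exact lt_min (by norm_num) (by positivity)
  have hε1 : ε ≤ 1 / 32 := by rw [hε]; exact min_le_left _ _
  have hε2 : G * ε < A := by
    have h1 : ε ≤ A / (2 * (G + 1)) := by rw [hε]; exact min_le_right _ _
    rw [le_div_iff₀ (by positivity)] at h1
    nlinarith
  have hτC : AEStronglyMeasurable (fun x => ((τ x : ℝ) : ℂ)) μ :=
    Complex.continuous_ofReal.comp_aestronglyMeasurable hτm
  have hint : ∀ (g : X → ℂ) (B : ℝ), AEStronglyMeasurable g μ → (∀ x, ψ x ≠ 0 → ‖g x‖ ≤ B) →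
      Integrable (fun x => ψ x * g x) μ ∧ ‖∫ x, ψ x * g x ∂μ‖ ≤ K * B := by
    intro g B hg hB
    have h1 : Integrable (fun x => ‖ψ x‖ * B) μ := hψ.norm.mul_const B
    have h2 : ∀ x, ‖ψ x * g x‖ ≤ ‖ψ x‖ * B := by
      intro x
      rw [norm_mul]
      by_cases hx : ψ x = 0
      · rw [hx]
        simp
      · exact mul_le_mul_of_nonneg_left (hB x hx) (norm_nonneg _)
    refine ⟨h1.mono' (hψ.aestronglyMeasurable.mul hg) (Filter.Eventually.of_forall h2), ?_⟩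
    refine (norm_integral_le_of_norm_le h1 (Filter.Eventually.of_forall h2)).trans (le_of_eq ?_)
    rw [integral_mul_const, hK]
  obtain ⟨c, hc⟩ : ∃ c : ℕ → ℂ, c = fun k => ∫ x, ψ x * (((τ x : ℝ) : ℂ) ^ k /
      (k.factorial : ℂ)) ∂μ := ⟨_, rfl⟩
  have hcn : ‖c n‖ = ‖κ‖ / n.factorial := by
    have h1 : c n = κ / (n.factorial : ℂ) := by
      rw [hc, ← hκi, ← integral_div]
      refine integral_congr_ae (Filter.Eventually.of_forall fun x => ?_)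
      show ψ x * (((τ x : ℝ) : ℂ) ^ n / (n.factorial : ℂ)) =
        ψ x * ((τ x : ℝ) : ℂ) ^ n / (n.factorial : ℂ)
      ring
    rw [h1, norm_div, Complex.norm_natCast]
  have hcn0 : c n ≠ 0 := by
    rw [← norm_pos_iff, hcn]
    positivity
  obtain ⟨R, hR1, hR2, hR3⟩ := pol_low n c ε hn hε0 hcn0
  have hR0 : 0 < R := lt_of_lt_of_le hε0 hR1
  have hR4 : R ≤ 1 / 16 := by linarith
  have hRn : ‖(R : ℂ)‖ = R := by
    rw [Complex.norm_real, Real.norm_of_nonneg hR0.le]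
  refine ⟨R, hR0, hR4, ?_⟩
  intro hz
  have h1 := hR3 (R : ℂ) hRn
  have j1 : ∀ k, Integrable (fun x => ψ x * (((τ x : ℝ) : ℂ) ^ k / (k.factorial : ℂ))) μ := by
    intro k
    refine (hint (fun x => ((τ x : ℝ) : ℂ) ^ k / (k.factorial : ℂ)) (M ^ k) ?_ ?_).1
    · have := (hτC.pow k).mul_const ((k.factorial : ℂ)⁻¹)
      simpa [div_eq_mul_inv] using this
    · intro x hx
      rw [norm_div, norm_pow, Complex.norm_real, Real.norm_eq_abs, Complex.norm_natCast]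
      have h7 : (1 : ℝ) ≤ k.factorial := by exact_mod_cast k.factorial_pos
      refine (div_le_self (by positivity) h7).trans ?_
      exact pow_le_pow_left₀ (abs_nonneg _) (hτ x hx) k
  have hsm : AEStronglyMeasurable (fun x => ∑ k ∈ Finset.range (n + 1),
      ((R : ℂ) * ((τ x : ℝ) : ℂ)) ^ k / (k.factorial : ℂ)) μ := by
    have hcont : Continuous (fun y : ℂ => ∑ k ∈ Finset.range (n + 1), ((R : ℂ) * y) ^ k /
        (k.factorial : ℂ)) := by fun_prop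
    exact hcont.comp_aestronglyMeasurable hτC
  have hem : AEStronglyMeasurable (fun x => Complex.exp ((R : ℂ) * ((τ x : ℝ) : ℂ))) μ :=
    Complex.continuous_exp.comp_aestronglyMeasurable (hτC.const_mul _)
  have h2 : ∑ k ∈ Finset.range (n + 1), c k * (R : ℂ) ^ k =
      ∫ x, ψ x * (∑ k ∈ Finset.range (n + 1), ((R : ℂ) * ((τ x : ℝ) : ℂ)) ^ k /
        (k.factorial : ℂ)) ∂μ := by
    have j2 : ∀ k, c k * (R : ℂ) ^ k = ∫ x, ψ x * (((τ x : ℝ) : ℂ) ^ k /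
        (k.factorial : ℂ)) * (R : ℂ) ^ k ∂μ := by
      intro k
      rw [hc, integral_mul_const]
    simp only [j2]
    rw [← integral_finsetSum]
    · refine integral_congr_ae (Filter.Eventually.of_forall fun x => ?_)
      show ∑ k ∈ Finset.range (n + 1), ψ x * (((τ x : ℝ) : ℂ) ^ k /
        (k.factorial : ℂ)) * (R : ℂ) ^ k = ψ x * (∑ k ∈ Finset.range (n + 1),
          ((R : ℂ) * ((τ x : ℝ) : ℂ)) ^ k / (k.factorial : ℂ))
      rw [Finset.mul_sum]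
      refine Finset.sum_congr rfl fun k _ => ?_
      rw [mul_pow]
      ring
    · intro k _
      exact (j1 k).mul_const _
  have hRτ : ∀ x, ψ x ≠ 0 → ‖(R : ℂ) * ((τ x : ℝ) : ℂ)‖ ≤ R * M := by
    intro x hx
    rw [norm_mul, hRn, Complex.norm_real, Real.norm_eq_abs]
    exact mul_le_mul_of_nonneg_left (hτ x hx) hR0.le
  have i6 := hint (fun x => Complex.exp ((R : ℂ) * ((τ x : ℝ) : ℂ)) -
      ∑ k ∈ Finset.range (n + 1), ((R : ℂ) * ((τ x : ℝ) : ℂ)) ^ k / (k.factorial : ℂ))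
      ((M ^ (n + 1) * Real.exp M) * (2 * ε) ^ (n + 1)) (hem.sub hsm) (by
    intro x hx
    refine (Complex.norm_exp_sub_sum_le_norm_mul_exp _ _).trans ?_
    have k1 := hRτ x hx
    have k2 : Real.exp ‖(R : ℂ) * ((τ x : ℝ) : ℂ)‖ ≤ Real.exp M := by
      refine Real.exp_le_exp.2 (k1.trans ?_)
      nlinarith
    have k3 : ‖(R : ℂ) * ((τ x : ℝ) : ℂ)‖ ^ (n + 1) ≤ (2 * ε * M) ^ (n + 1) := by
      refine pow_le_pow_left₀ (norm_nonneg _) (k1.trans ?_) _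
      exact mul_le_mul_of_nonneg_right hR2 (by linarith)
    have k4 : (M ^ (n + 1) * Real.exp M) * (2 * ε) ^ (n + 1) =
        (2 * ε * M) ^ (n + 1) * Real.exp M := by
      have k5 : (2 * ε * M) ^ (n + 1) = (2 * ε) ^ (n + 1) * M ^ (n + 1) := mul_pow _ _ _
      rw [k5]
      ring
    rw [k4]
    exact mul_le_mul k3 k2 (Real.exp_pos _).le (by positivity))
  have i5 := hint (fun x => Complex.exp ((R : ℂ) * ((τ x : ℝ) : ℂ))) (Real.exp M) hem (by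
    intro x hx
    refine (Complex.norm_exp_le_exp_norm _).trans (Real.exp_le_exp.2 ((hRτ x hx).trans ?_))
    nlinarith)
  have i4 : Integrable (fun x => ψ x * (∑ k ∈ Finset.range (n + 1),
      ((R : ℂ) * ((τ x : ℝ) : ℂ)) ^ k / (k.factorial : ℂ))) μ := by
    have h3 : (fun x => ψ x * (∑ k ∈ Finset.range (n + 1),
        ((R : ℂ) * ((τ x : ℝ) : ℂ)) ^ k / (k.factorial : ℂ))) = fun x =>
        ∑ k ∈ Finset.range (n + 1), ψ x * (((τ x : ℝ) : ℂ) ^ k /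
        (k.factorial : ℂ)) * (R : ℂ) ^ k := by
      funext x
      rw [Finset.mul_sum]
      refine Finset.sum_congr rfl fun k _ => ?_
      rw [mul_pow]
      ring
    rw [h3]
    exact integrable_finsetSum _ fun k _ => (j1 k).mul_const _
  have h3 : ∫ x, ψ x * (∑ k ∈ Finset.range (n + 1), ((R : ℂ) * ((τ x : ℝ) : ℂ)) ^ k /
        (k.factorial : ℂ)) ∂μ = -∫ x, ψ x * (Complex.exp ((R : ℂ) * ((τ x : ℝ) : ℂ)) -
      ∑ k ∈ Finset.range (n + 1), ((R : ℂ) * ((τ x : ℝ) : ℂ)) ^ k / (k.factorial : ℂ)) ∂μ := by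
    have h4 : ∫ x, ψ x * (Complex.exp ((R : ℂ) * ((τ x : ℝ) : ℂ)) -
        ∑ k ∈ Finset.range (n + 1), ((R : ℂ) * ((τ x : ℝ) : ℂ)) ^ k / (k.factorial : ℂ)) ∂μ =
        (∫ x, ψ x * Complex.exp ((R : ℂ) * ((τ x : ℝ) : ℂ)) ∂μ) -
        ∫ x, ψ x * (∑ k ∈ Finset.range (n + 1), ((R : ℂ) * ((τ x : ℝ) : ℂ)) ^ k /
        (k.factorial : ℂ)) ∂μ := by
      rw [← integral_sub i5.1 i4]
      refine integral_congr_ae (Filter.Eventually.of_forall fun x => ?_)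
      show ψ x * (Complex.exp ((R : ℂ) * ((τ x : ℝ) : ℂ)) -
        ∑ k ∈ Finset.range (n + 1), ((R : ℂ) * ((τ x : ℝ) : ℂ)) ^ k / (k.factorial : ℂ)) =
        ψ x * Complex.exp ((R : ℂ) * ((τ x : ℝ) : ℂ)) - ψ x * (∑ k ∈ Finset.range (n + 1),
          ((R : ℂ) * ((τ x : ℝ) : ℂ)) ^ k / (k.factorial : ℂ))
      ring
    rw [h4, hz]
    ring
  rw [h2, h3, norm_neg] at h1
  have h5 := h1.trans i6.2
  rw [hcn] at h5
  have h6 : ‖κ‖ / n.factorial * (ε / (4 * n)) ^ n = A * ε ^ n := by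
    rw [hA, div_pow]
    ring
  have h7 : K * ((M ^ (n + 1) * Real.exp M) * (2 * ε) ^ (n + 1)) = G * ε * ε ^ n := by
    rw [hG, mul_pow, pow_succ ε n]
    ring
  rw [h6, h7] at h5
  have h8 : 0 < ε ^ n := by positivity
  have h9 := le_of_mul_le_mul_right h5 h8
  linarith

/-- the perturbed integral -/
theorem tay_core {X : Type} [MeasurableSpace X] (μ : Measure X) (ψ : X → ℂ) (τ : X → ℝ) (M : ℝ)
    (n : ℕ) (κ : ℂ) (hψ : Integrable ψ μ) (hτm : AEStronglyMeasurable τ μ) (hM : 1 ≤ M)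
    (hτ : ∀ x, ψ x ≠ 0 → |τ x| ≤ M) (hn : 1 ≤ n) (hκ : κ ≠ 0)
    (hκi : ∫ x, ψ x * ((τ x : ℝ) : ℂ) ^ n ∂μ = κ) :
    ∃ η c2 C1 u : ℝ, 0 < η ∧ η ≤ 1 ∧ 0 < c2 ∧ 0 < C1 ∧ 0 < u ∧ u ≤ 1 / 16 ∧
      ∀ (E : X → ℂ) (h : X → ℝ) (δ : ℝ), AEStronglyMeasurable E μ →
      AEStronglyMeasurable h μ → 0 < δ → (∀ x, ψ x ≠ 0 → ‖E x - 1‖ ≤ η) →
      (∀ x, ψ x ≠ 0 → |h x - δ * τ x| ≤ η * δ) →
      (∀ w : ℂ, ‖w‖ ≤ δ⁻¹ → ‖∫ x, ψ x * E x * Complex.exp (w * ((h x : ℝ) : ℂ)) ∂μ‖ ≤ C1) ∧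
      c2 ≤ ‖∫ x, ψ x * E x * Complex.exp (((u * δ⁻¹ : ℝ) : ℂ) * ((h x : ℝ) : ℂ)) ∂μ‖ := by
  obtain ⟨u, hu0, hu1, hQ⟩ := tay_ne μ ψ τ M n κ hψ hτm hM hτ hn hκ hκi
  obtain ⟨Q, hQd⟩ : ∃ Q : ℂ, Q = ∫ x, ψ x * Complex.exp ((u : ℂ) * ((τ x : ℝ) : ℂ)) ∂μ :=
    ⟨_, rfl⟩
  rw [← hQd] at hQ
  have hQ0 : 0 < ‖Q‖ := norm_pos_iff.2 hQ
  obtain ⟨K, hK⟩ : ∃ K : ℝ, K = ∫ x, ‖ψ x‖ ∂μ := ⟨_, rfl⟩
  have hK0 : 0 ≤ K := by
    rw [hK]
    exact integral_nonneg fun x => norm_nonneg _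
  obtain ⟨D, hD⟩ : ∃ D : ℝ, D = 3 * Real.exp (M + 1) := ⟨_, rfl⟩
  have hD0 : 0 < D := by rw [hD]; positivity
  obtain ⟨η, hη⟩ : ∃ η : ℝ, η = min 1 (‖Q‖ / (2 * (K * D + 1))) := ⟨_, rfl⟩
  have hη0 : 0 < η := by
    rw [hη]
    exact lt_min one_pos (by positivity)
  have hη1 : η ≤ 1 := by rw [hη]; exact min_le_left _ _
  have hη2 : K * (D * η) ≤ ‖Q‖ / 2 := by
    have h1 : η ≤ ‖Q‖ / (2 * (K * D + 1)) := by rw [hη]; exact min_le_right _ _
    rw [le_div_iff₀ (by positivity)] at h1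
    nlinarith
  refine ⟨η, ‖Q‖ / 2, 2 * Real.exp (M + 1) * (K + 1), u, hη0, hη1, by positivity, by positivity,
    hu0, hu1, ?_⟩
  intro E h δ hE hh hδ hE1 hh1
  have bE : ∀ x, ψ x ≠ 0 → ‖E x‖ ≤ 2 := by
    intro x hx
    have h1 := hE1 x hx
    have h2 : E x = (E x - 1) + 1 := by ring
    rw [h2]
    refine (norm_add_le _ _).trans ?_
    rw [norm_one]
    linarith
  have bh : ∀ x, ψ x ≠ 0 → |h x| ≤ δ * (M + 1) := by
    intro x hx
    have h1 := hh1 x hx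
    have h2 := hτ x hx
    have h3 : h x = (h x - δ * τ x) + δ * τ x := by ring
    rw [h3]
    refine (abs_add_le _ _).trans ?_
    rw [abs_mul, abs_of_pos hδ]
    have h4 : η * δ ≤ δ := by nlinarith
    have h5 : δ * |τ x| ≤ δ * M := mul_le_mul_of_nonneg_left h2 hδ.le
    linarith
  have hhC : AEStronglyMeasurable (fun x => ((h x : ℝ) : ℂ)) μ :=
    Complex.continuous_ofReal.comp_aestronglyMeasurable hh
  have hτC : AEStronglyMeasurable (fun x => ((τ x : ℝ) : ℂ)) μ :=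
    Complex.continuous_ofReal.comp_aestronglyMeasurable hτm
  have hint : ∀ (g : X → ℂ) (B : ℝ), AEStronglyMeasurable g μ → (∀ x, ψ x ≠ 0 → ‖g x‖ ≤ B) →
      Integrable (fun x => ψ x * g x) μ ∧ ‖∫ x, ψ x * g x ∂μ‖ ≤ K * B := by
    intro g B hg hB
    have h1 : Integrable (fun x => ‖ψ x‖ * B) μ := hψ.norm.mul_const B
    have h2 : ∀ x, ‖ψ x * g x‖ ≤ ‖ψ x‖ * B := by
      intro x
      rw [norm_mul]
      by_cases hx : ψ x = 0
      · rw [hx]
        simp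
      · exact mul_le_mul_of_nonneg_left (hB x hx) (norm_nonneg _)
    refine ⟨h1.mono' (hψ.aestronglyMeasurable.mul hg) (Filter.Eventually.of_forall h2), ?_⟩
    refine (norm_integral_le_of_norm_le h1 (Filter.Eventually.of_forall h2)).trans (le_of_eq ?_)
    rw [integral_mul_const, hK]
  have bw : ∀ w : ℂ, ‖w‖ ≤ δ⁻¹ → ∀ x, ψ x ≠ 0 → ‖w * ((h x : ℝ) : ℂ)‖ ≤ M + 1 := by
    intro w hw x hx
    rw [norm_mul, Complex.norm_real, Real.norm_eq_abs]
    have h1 := mul_le_mul hw (bh x hx) (abs_nonneg _) (by positivity)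
    refine h1.trans (le_of_eq ?_)
    rw [← mul_assoc, inv_mul_cancel₀ hδ.ne', one_mul]
  have hem : ∀ w : ℂ, AEStronglyMeasurable (fun x => Complex.exp (w * ((h x : ℝ) : ℂ))) μ :=
    fun w => Complex.continuous_exp.comp_aestronglyMeasurable (hhC.const_mul w)
  have main : ∀ w : ℂ, ‖w‖ ≤ δ⁻¹ →
      Integrable (fun x => ψ x * (E x * Complex.exp (w * ((h x : ℝ) : ℂ)))) μ ∧
      ‖∫ x, ψ x * (E x * Complex.exp (w * ((h x : ℝ) : ℂ))) ∂μ‖ ≤
        K * (2 * Real.exp (M + 1)) := by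
    intro w hw
    refine hint (fun x => E x * Complex.exp (w * ((h x : ℝ) : ℂ))) _ (hE.mul (hem w)) ?_
    intro x hx
    rw [norm_mul]
    refine mul_le_mul (bE x hx) ?_ (norm_nonneg _) (by norm_num)
    exact (Complex.norm_exp_le_exp_norm _).trans (Real.exp_le_exp.2 (bw w hw x hx))
  constructor
  · intro w hw
    have h1 : ∫ x, ψ x * E x * Complex.exp (w * ((h x : ℝ) : ℂ)) ∂μ =
        ∫ x, ψ x * (E x * Complex.exp (w * ((h x : ℝ) : ℂ))) ∂μ :=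
      integral_congr_ae (Filter.Eventually.of_forall fun x => mul_assoc _ _ _)
    rw [h1]
    refine (main w hw).2.trans ?_
    have h2 : 0 < Real.exp (M + 1) := Real.exp_pos _
    nlinarith
  · obtain ⟨w, hw⟩ : ∃ w : ℂ, w = ((u * δ⁻¹ : ℝ) : ℂ) := ⟨_, rfl⟩
    rw [← hw]
    have hwn : ‖w‖ = u * δ⁻¹ := by
      rw [hw, Complex.norm_real, Real.norm_of_nonneg (by positivity)]
    have hwd : ‖w‖ ≤ δ⁻¹ := by
      rw [hwn]
      exact mul_le_of_le_one_left (by positivity) (by linarith)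
    have h1 : ∫ x, ψ x * E x * Complex.exp (w * ((h x : ℝ) : ℂ)) ∂μ =
        ∫ x, ψ x * (E x * Complex.exp (w * ((h x : ℝ) : ℂ))) ∂μ :=
      integral_congr_ae (Filter.Eventually.of_forall fun x => mul_assoc _ _ _)
    rw [h1]
    have he : AEStronglyMeasurable (fun x => Complex.exp ((u : ℂ) * ((τ x : ℝ) : ℂ))) μ :=
      Complex.continuous_exp.comp_aestronglyMeasurable (hτC.const_mul _)
    have buτ : ∀ x, ψ x ≠ 0 → ‖(u : ℂ) * ((τ x : ℝ) : ℂ)‖ ≤ M := by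
      intro x hx
      rw [norm_mul, Complex.norm_real, Complex.norm_real, Real.norm_of_nonneg hu0.le,
        Real.norm_eq_abs]
      have := hτ x hx
      have h0 := abs_nonneg (τ x)
      nlinarith
    have i1 := hint (fun x => Complex.exp ((u : ℂ) * ((τ x : ℝ) : ℂ))) (Real.exp M) he (by
      intro x hx
      exact (Complex.norm_exp_le_exp_norm _).trans (Real.exp_le_exp.2 (buτ x hx)))
    have i2 := hint (fun x => E x * Complex.exp (w * ((h x : ℝ) : ℂ)) -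
        Complex.exp ((u : ℂ) * ((τ x : ℝ) : ℂ))) (D * η) ((hE.mul (hem w)).sub he) (by
      intro x hx
      obtain ⟨a, ha⟩ : ∃ a : ℂ, a = w * ((h x : ℝ) : ℂ) := ⟨_, rfl⟩
      obtain ⟨b, hb⟩ : ∃ b : ℂ, b = (u : ℂ) * ((τ x : ℝ) : ℂ) := ⟨_, rfl⟩
      have hab : ‖a - b‖ ≤ η := by
        have h2 : a - b = ((u * δ⁻¹ * (h x - δ * τ x) : ℝ) : ℂ) := by
          have hδC : (δ : ℂ) ≠ 0 := by exact_mod_cast hδ.ne'
          rw [ha, hb, hw]
          push_cast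
          field_simp
        rw [h2, Complex.norm_real, Real.norm_eq_abs, abs_mul, abs_of_pos (by positivity)]
        have h3 := mul_le_mul_of_nonneg_left (hh1 x hx) (by positivity : 0 ≤ u * δ⁻¹)
        refine h3.trans ?_
        have h4 : u * δ⁻¹ * (η * δ) = u * η := by
          field_simp
        rw [h4]
        nlinarith
      have h2 : E x * Complex.exp a - Complex.exp b =
          (E x - 1) * Complex.exp a + Complex.exp b * (Complex.exp (a - b) - 1) := by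
        rw [Complex.exp_sub]
        have := Complex.exp_ne_zero b
        field_simp
        ring
      show ‖E x * Complex.exp (w * ((h x : ℝ) : ℂ)) -
        Complex.exp ((u : ℂ) * ((τ x : ℝ) : ℂ))‖ ≤ D * η
      rw [← ha, ← hb, h2]
      refine (norm_add_le _ _).trans ?_
      rw [norm_mul, norm_mul]
      have h3 : ‖Complex.exp a‖ ≤ Real.exp (M + 1) := by
        rw [ha]
        exact (Complex.norm_exp_le_exp_norm _).trans (Real.exp_le_exp.2 (bw w hwd x hx))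
      have h4 : ‖Complex.exp b‖ ≤ Real.exp (M + 1) := by
        rw [hb]
        refine (Complex.norm_exp_le_exp_norm _).trans (Real.exp_le_exp.2 ?_)
        linarith [buτ x hx]
      have h5 : ‖Complex.exp (a - b) - 1‖ ≤ 2 * η :=
        (Complex.norm_exp_sub_one_le (hab.trans hη1)).trans (by linarith)
      have h6 := mul_le_mul (hE1 x hx) h3 (norm_nonneg _) hη0.le
      have h7 := mul_le_mul h4 h5 (norm_nonneg _) (Real.exp_pos _).le
      rw [hD]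
      linarith)
    have h3 : Q = (∫ x, ψ x * (E x * Complex.exp (w * ((h x : ℝ) : ℂ))) ∂μ) -
        ∫ x, ψ x * (E x * Complex.exp (w * ((h x : ℝ) : ℂ)) -
        Complex.exp ((u : ℂ) * ((τ x : ℝ) : ℂ))) ∂μ := by
      have h4 : ∫ x, ψ x * (E x * Complex.exp (w * ((h x : ℝ) : ℂ)) -
          Complex.exp ((u : ℂ) * ((τ x : ℝ) : ℂ))) ∂μ =
          (∫ x, ψ x * (E x * Complex.exp (w * ((h x : ℝ) : ℂ))) ∂μ) - Q := by
        rw [hQd, ← integral_sub (main w hwd).1 i1.1]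
        refine integral_congr_ae (Filter.Eventually.of_forall fun x => ?_)
        exact mul_sub _ _ _
      rw [h4]
      ring
    have h5 : ‖Q‖ ≤ ‖∫ x, ψ x * (E x * Complex.exp (w * ((h x : ℝ) : ℂ))) ∂μ‖ + K * (D * η) := by
      calc ‖Q‖ = ‖(∫ x, ψ x * (E x * Complex.exp (w * ((h x : ℝ) : ℂ))) ∂μ) -
        ∫ x, ψ x * (E x * Complex.exp (w * ((h x : ℝ) : ℂ)) -
        Complex.exp ((u : ℂ) * ((τ x : ℝ) : ℂ))) ∂μ‖ := by rw [← h3]
        _ ≤ _ := (norm_sub_le _ _).trans (add_le_add le_rfl i2.2)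
    linarith

end Pool.Agent.H16.GZZ
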